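import Pool.Agent.helper440_simplex.CapMain

/-! # Q1 for all caps when the set has slightly larger measure

For every `t` and `η > 0` and all large `k`: if `A` is a measurable subset of the sphere and `C` is
any cap with `μ(A) ≥ μ(C) + η`, then `A` contains `t` points whose minimum pairwise distance is at
least that of any `t` points of `C`, so `d_t(A) ≥ d_t(C)`. -/

set_option autoImplicit false

namespace Pool.Agent.Results.MP_edb112_gt.CapComparisonWithSlack

open MeasureTheory Metric

/-- the unit sphere of `ℝ^(k+1)` -/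
abbrev Sph (k : ℕ) : Set (EuclideanSpace ℝ (Fin (k + 1))) :=
  Metric.sphere (0 : EuclideanSpace ℝ (Fin (k + 1))) 1

/-- the surface measure on the unit sphere of `ℝ^(k+1)` -/
noncomputable def area (k : ℕ) : Measure (Sph k) :=
  (MeasureTheory.volume : MeasureTheory.Measure (EuclideanSpace ℝ (Fin (k + 1)))).toSphere

/-- the cap of the points `x` of the sphere with `⟨x, v⟩ ≥ c` -/
def cap (k : ℕ) (v : EuclideanSpace ℝ (Fin (k + 1))) (c : ℝ) : Set (Sph k) :=
  {x | c ≤ inner ℝ (x : EuclideanSpace ℝ (Fin (k + 1))) v}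

/-- the pairwise distances of the points `x` are at least `r` -/
def SepBy {t k : ℕ} (r : ℝ) (x : Fin t → Sph k) : Prop :=
  ∀ i j, i ≠ j → r ≤ dist (x i) (x j)

/-- For every `t ≥ 2` and every `η > 0` there is `k₀` such that for `k > k₀`, every measurable
subset `A` of the unit sphere of `ℝ^(k+1)` and every cap `C` with `μ(C) + η ≤ μ(A)` for the
normalised measure `μ`: whenever `C` contains `t` points with pairwise distances at least `r`, so
does `A`. -/
theorem result :
    ∀ t : ℕ, 2 ≤ t → ∀ η : ℝ, 0 < η → ∃ k₀ : ℕ, ∀ k : ℕ, k₀ < k →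
      ∀ A : Set (Sph k), MeasurableSet A →
      ∀ v : EuclideanSpace ℝ (Fin (k + 1)), ‖v‖ = 1 → ∀ c : ℝ,
        area k (cap k v c) + ENNReal.ofReal η * area k Set.univ ≤ area k A →
        ∀ (x : Fin t → Sph k) (r : ℝ), (∀ i, x i ∈ cap k v c) → SepBy r x →
          ∃ y : Fin t → Sph k, (∀ i, y i ∈ A) ∧ SepBy r y := by
  intro t ht η hη
  obtain ⟨k₀, hk₀⟩ := Pool.Agent.helper440_simplex.cap_main t ht η hη
  exact ⟨k₀, fun k hk A hA v hv c hAc x r hxc hxr => hk₀ k hk A hA v hv c hAc x r hxc hxr⟩

end Pool.Agent.Results.MP_edb112_gt.CapComparisonWithSlack
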